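import Pool.Agent.P8H14.CN.Stm
import Pool.Agent.H38R2.CG.LM2

/-!
Package OFF of project CN (helper14).
-/

set_option autoImplicit false

namespace Pool.Agent.P8H93.CN

open Finset Pool.Agent.H38R2.CG Pool.Agent.P8H14.CN

lemma abs_chi2 (D : ℤ) (a : ℕ) : |((chi2 D : ℤ) : ℝ) ^ a| ≤ 1 := by
  rw [abs_pow]
  apply pow_le_one₀ (abs_nonneg _)
  unfold chi2
  split_ifs <;> norm_num

lemma chi2_mod (D c : ℕ) (hc : c < 8) (h : D % 8 = c) : chi2 (D : ℤ) = chi2 (c : ℤ) := by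
  have h1 : (D : ℤ) % 8 = (c : ℤ) % 8 := by omega
  unfold chi2
  rw [h1]

theorem off : S_MUL → P_PV → S_OFF := by
  rintro ⟨-, -, -, hod⟩ ⟨C, hC, hPV⟩
  refine ⟨8 * C, by positivity, fun X m hm hsq => ?_⟩
  obtain ⟨ho, ho1, hom, -⟩ := hod m hm
  have hco : Nat.Coprime 8 (od m) := Nat.Coprime.pow_left 3 (Nat.coprime_two_left.2 ho)
  have hI : Icc 1 X = Ioc 0 X := rfl
  have hsplit : ∑ D ∈ Icc 1 X, (chi (D : ℤ) m : ℝ) = ∑ c ∈ range 8, ((chi2 (c : ℤ) : ℤ) : ℝ) ^ (padicValNat 2 m) *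
      ∑ D ∈ (Ioc 0 X).filter (fun D => D % 8 = c), ((jacobiSym (D : ℤ) (od m) : ℤ) : ℝ) := by
    rw [hI, ← Finset.sum_fiberwise_of_maps_to (g := fun D : ℕ => D % 8) (t := range 8)
      (fun D _ => Finset.mem_range.2 (Nat.mod_lt _ (by norm_num)))]
    refine Finset.sum_congr rfl fun c hc => ?_
    rw [Finset.mem_range] at hc
    rw [Finset.mul_sum]
    refine Finset.sum_congr rfl fun D hD => ?_
    rw [Finset.mem_filter] at hD
    have h1 : chi (D : ℤ) m = chi2 (D : ℤ) ^ (padicValNat 2 m) * jacobiSym (D : ℤ) (od m) := rfl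
    rw [h1, chi2_mod D c hc hD.2]
    push_cast
    rfl
  rw [hsplit]
  have hlog : Real.log (od m : ℝ) ≤ Real.log ((m : ℝ) + 1) := by
    apply Real.log_le_log
    · exact_mod_cast ho1
    · have : (od m : ℝ) ≤ m := by exact_mod_cast hom
      linarith
  have hlog0 : 0 ≤ Real.log (od m : ℝ) := Real.log_natCast_nonneg _
  have hsq' : √(od m : ℝ) ≤ √(m : ℝ) := Real.sqrt_le_sqrt (by exact_mod_cast hom)
  calc |∑ c ∈ range 8, ((chi2 (c : ℤ) : ℤ) : ℝ) ^ (padicValNat 2 m) *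
      ∑ D ∈ (Ioc 0 X).filter (fun D => D % 8 = c), ((jacobiSym (D : ℤ) (od m) : ℤ) : ℝ)|
      ≤ ∑ c ∈ range 8, |((chi2 (c : ℤ) : ℤ) : ℝ) ^ (padicValNat 2 m) *
      ∑ D ∈ (Ioc 0 X).filter (fun D => D % 8 = c), ((jacobiSym (D : ℤ) (od m) : ℤ) : ℝ)| :=
        Finset.abs_sum_le_sum_abs _ _
    _ ≤ ∑ c ∈ range 8, C * √(m : ℝ) * Real.log ((m : ℝ) + 1) := by
        refine Finset.sum_le_sum fun c hc => ?_
        rw [Finset.mem_range] at hc
        rw [abs_mul]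
        have h2 := LM2h.ap_sum C hPV (od m) ho hsq 8 c hc hco 0 X (Nat.zero_le _)
        have h3 : C * √(od m : ℝ) * Real.log (od m : ℝ) ≤ C * √(m : ℝ) * Real.log ((m : ℝ) + 1) := by
          gcongr
        calc _ ≤ 1 * (C * √(m : ℝ) * Real.log ((m : ℝ) + 1)) :=
              mul_le_mul (abs_chi2 _ _) (h2.trans h3) (abs_nonneg _) zero_le_one
          _ = _ := one_mul _
    _ = 8 * C * √(m : ℝ) * Real.log ((m : ℝ) + 1) := by
        rw [Finset.sum_const, Finset.card_range, nsmul_eq_mul]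
        push_cast
        ring

end Pool.Agent.P8H93.CN
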